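import Pool.Agent.Lead.Ham.Main

open Pool.Agent.H38.NP Pool.Agent.Lead.Ham

theorem Pool.Agent.Results.MP_2e8011_lc.Complete.result (j : ℕ) (hj : 26 ≤ j) :
    NPHardOn (fun p : ℕ × List (ℕ × ℕ) => (Hgraph j).Free (graphOf p.1 p.2))
      (fun p => (graphOf p.1 p.2).IsHamiltonian) ∧
    InNPOn (fun p : ℕ × List (ℕ × ℕ) => (Hgraph j).Free (graphOf p.1 p.2))
      (fun p => (graphOf p.1 p.2).IsHamiltonian) :=
  ⟨(hard hj).npHardOn, ham_NP _⟩
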